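import Mathlib
import Pool.Agent.H14.EulerB2

set_option autoImplicit false

namespace Pool.Agent.Results.MP_209e83_co.TypeB

open Pool.Agent.H14.EulerBDefs

theorem result (x : ℕ → ℝ) (h0 : ∀ n, 0 ≤ x n) (hx : ∀ k, x (k + 1) ^ 2 ≤ x k * x (k + 2))
    (z : ℕ → ℝ) (hz : ∀ n, z n = ∑ k ∈ Finset.range (n + 1), (B n k : ℝ) * x k) (n : ℕ) :
    z (n + 1) ^ 2 ≤ z n * z (n + 2) := by
  rw [hz, hz, hz, H14.EulerB.link _ (n + 2) (by omega), H14.EulerB.link _ (n + 2) (by omega),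
    H14.EulerB.link _ (n + 2) le_rfl]
  exact H14.EulerB.main x h0 hx n

end Pool.Agent.Results.MP_209e83_co.TypeB
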